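import Mathlib

/-!
MP_1d13cc_al, Q1: a unit-cancellative monoid with the ACCP which is not acyclic.
-/

set_option autoImplicit false

namespace Pool.Agent.Results.MP_1d13cc_al.NotAcyclic

/-- Unit-cancellative monoids. -/
def UnitCancellative (H : Type) [Monoid H] : Prop :=
  ∀ x y : H, ¬ IsUnit y → x * y ≠ x ∧ y * x ≠ x

/-- Acyclic monoids. -/
def Acyclic (H : Type) [Monoid H] : Prop :=
  ∀ u v x : H, (¬ IsUnit u ∨ ¬ IsUnit v) → u * x * v ≠ x

/-- The principal two-sided ideal generated by `a`. -/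
def PIdeal {H : Type} [Monoid H] (a : H) : Set H := {z | ∃ x y : H, z = x * a * y}

/-- The ascending chain condition on principal two-sided ideals. -/
def ACCP (H : Type) [Monoid H] : Prop :=
  ¬ ∃ a : ℕ → H, ∀ n, PIdeal (a n) ⊂ PIdeal (a (n + 1))

/-- The elements of the monoid: `w a b` is `u ^ a * v ^ b` and `t m i j d` contains `m + 1` letters
`x`. -/
inductive El : Type
  | w (a b : ℕ) : El
  | t (m i j : ℕ) (d : ℤ) : El

namespace El

/-- the product -/
def mul : El → El → El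
  | w a b, w a' b' => w (a + a') (b + b')
  | w a b, t m i j d => t m (i + b) j (d + a)
  | t m i j d, w a b => t m i (j + a) (d - b)
  | t m i j d, t m' i' j' d' => t (m + m' + 1) i j' (d + d' + j - i')

instance : Mul El := ⟨mul⟩
instance : One El := ⟨w 0 0⟩

theorem one_def : (1 : El) = w 0 0 := rfl
theorem ww (a b a' b' : ℕ) : w a b * w a' b' = w (a + a') (b + b') := rfl
theorem wt (a b m i j : ℕ) (d : ℤ) : w a b * t m i j d = t m (i + b) j (d + a) := rfl
theorem tw (a b m i j : ℕ) (d : ℤ) : t m i j d * w a b = t m i (j + a) (d - b) := rfl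
theorem tt (m i j : ℕ) (d : ℤ) (m' i' j' : ℕ) (d' : ℤ) :
    t m i j d * t m' i' j' d' = t (m + m' + 1) i j' (d + d' + j - i') := rfl

instance : Monoid El where
  mul_assoc x y z := by
    rcases x with ⟨a, b⟩ | ⟨m, i, j, d⟩ <;> rcases y with ⟨a', b'⟩ | ⟨m', i', j', d'⟩ <;>
      rcases z with ⟨a'', b''⟩ | ⟨m'', i'', j'', d''⟩ <;>
      simp only [ww, wt, tw, tt, w.injEq, t.injEq] <;> push_cast <;> and_intros <;>
      first | trivial | omega
  one_mul x := by
    rcases x with ⟨a, b⟩ | ⟨m, i, j, d⟩ <;> simp [one_def, ww, wt]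
  mul_one x := by
    rcases x with ⟨a, b⟩ | ⟨m, i, j, d⟩ <;> simp [one_def, ww, tw]

/-- the number of letters `x` -/
def rk : El → ℕ
  | w _ _ => 0
  | t m _ _ _ => m + 1

/-- the size -/
def sz : El → ℕ
  | w a b => a + b
  | t _ i j _ => i + j

theorem unitCancellative : UnitCancellative El := by
  intro x y hy
  have hy1 : y ≠ 1 := fun h => hy (h ▸ isUnit_one)
  rcases x with ⟨a, b⟩ | ⟨m, i, j, d⟩ <;> rcases y with ⟨a', b'⟩ | ⟨m', i', j', d'⟩ <;>
    simp only [ww, wt, tw, tt, one_def, ne_eq, w.injEq, t.injEq, reduceCtorEq,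
      not_false_eq_true, true_and, and_true] at hy1 ⊢ <;> omega

theorem key (p y q : El) : rk y < rk (p * y * q) ∨
    (rk y = rk (p * y * q) ∧ sz y < sz (p * y * q)) ∨ ∃ p' q', y = p' * (p * y * q) * q' := by
  rcases p with ⟨a, b⟩ | ⟨m, i, j, d⟩ <;> rcases y with ⟨a', b'⟩ | ⟨m', i', j', d'⟩ <;>
    rcases q with ⟨a'', b''⟩ | ⟨m'', i'', j'', d''⟩ <;>
    simp only [ww, wt, tw, tt, rk, sz]
  · by_cases h : a + b + (a'' + b'') = 0
    · refine Or.inr (Or.inr ⟨1, 1, ?_⟩)
      rw [one_mul, mul_one, w.injEq]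
      omega
    · exact Or.inr (Or.inl ⟨by trivial, by omega⟩)
  · left; omega
  · by_cases h : b + a'' = 0
    · refine Or.inr (Or.inr ⟨w b'' 0, w 0 a, ?_⟩)
      rw [wt, tw, t.injEq]
      push_cast
      omega
    · exact Or.inr (Or.inl ⟨by trivial, by omega⟩)
  all_goals left; omega

theorem accp : ACCP El := by
  rintro ⟨a, ha⟩
  have hstep : ∀ n, Prod.Lex (· < ·) (· < ·) (rk (a (n + 1)), sz (a (n + 1)))
      (rk (a n), sz (a n)) := by
    intro n
    have h1 : a n ∈ PIdeal (a (n + 1)) := (ha n).1 ⟨1, 1, by simp⟩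
    obtain ⟨p, q, h2⟩ := h1
    rcases key p (a (n + 1)) q with h | ⟨h, h'⟩ | ⟨p', q', h⟩
    · rw [← h2] at h
      exact Prod.Lex.left _ _ h
    · rw [← h2] at h h'
      rw [h]
      exact Prod.Lex.right _ h'
    · exfalso
      apply (ha n).2
      rintro z ⟨r, s, rfl⟩
      refine ⟨r * p', q' * s, ?_⟩
      rw [← h2] at h
      conv_lhs => rw [h]
      simp only [mul_assoc]
  have hwf : WellFounded (Prod.Lex (· < ·) (· < ·) : ℕ × ℕ → ℕ × ℕ → Prop) :=
    WellFounded.prod_lex wellFounded_lt wellFounded_lt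
  obtain ⟨x, ⟨n, rfl⟩, hx⟩ := hwf.has_min (Set.range fun n => (rk (a n), sz (a n))) ⟨_, 0, rfl⟩
  exact hx _ ⟨n + 1, rfl⟩ (hstep n)

end El

/-- There is a unit-cancellative monoid with the ACCP which is not acyclic. -/
theorem result : ∃ (H : Type) (_ : Monoid H), UnitCancellative H ∧ ACCP H ∧ ¬ Acyclic H := by
  refine ⟨El, inferInstance, El.unitCancellative, El.accp, ?_⟩
  intro h
  refine h (.w 1 0) (.w 0 1) (.t 0 0 0 0) (Or.inl ?_) (by simp [El.wt, El.tw])
  rintro ⟨u, hu⟩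
  have h1 := u.mul_inv
  rw [hu] at h1
  generalize (↑u⁻¹ : El) = v at h1
  rcases v with ⟨a, b⟩ | ⟨m, i, j, d⟩
  · simp only [El.ww, El.one_def, El.w.injEq] at h1
    omega
  · simp [El.wt, El.one_def] at h1

end Pool.Agent.Results.MP_1d13cc_al.NotAcyclic
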